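import Mathlib
import Pool.Agent.Helper3_PPX.Defs
import Pool.Agent.Helper3_PPX.Stmts

/-!
# Squad PPX: module SDB

Division of the Chow form by the linear forms of the points where the first order information is
available, and specialisation to `c = s`.
-/

set_option autoImplicit false

universe u

namespace Pool.Agent.PPX.H33

open MvPolynomial Pool.Agent.PPX

section

variable {k : Type u} [Field k]

/-- the degree in one variable after a substitution -/
lemma degreeOf_aeval_le {σ τ : Type} (g : σ → MvPolynomial τ k) (v : τ) (w : σ)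
    (hw : degreeOf v (g w) ≤ 1) (hg : ∀ x, x ≠ w → degreeOf v (g x) = 0) (P : MvPolynomial σ k) :
    degreeOf v (aeval g P) ≤ degreeOf w P := by
  classical
  rw [aeval_def, eval₂_eq]
  refine (degreeOf_sum_le v _ _).trans (Finset.sup_le fun m hm => ?_)
  refine (degreeOf_mul_le _ _ _).trans ?_
  have h1 : degreeOf v ((algebraMap k (MvPolynomial τ k)) (coeff m P)) = 0 := degreeOf_C _ _
  rw [h1, zero_add]
  refine (degreeOf_prod_le v _ _).trans ?_
  have h2 : ∀ i ∈ m.support, degreeOf v (g i ^ m i) ≤ if i = w then m w else 0 := by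
    intro i _
    refine (degreeOf_pow_le v _ _).trans ?_
    by_cases hi : i = w
    · subst hi
      simp only [if_true]
      calc m i * degreeOf v (g i) ≤ m i * 1 := Nat.mul_le_mul_left _ hw
        _ = m i := mul_one _
    · rw [hg i hi, if_neg hi, mul_zero]
  refine (Finset.sum_le_sum h2).trans ?_
  rw [Finset.sum_ite_eq']
  have h3 : m w ≤ degreeOf w P := by
    rw [degreeOf_eq_sup]
    exact Finset.le_sup (f := fun m : σ →₀ ℕ => m w) hm
  split_ifs
  · exact h3
  · exact Nat.zero_le _

/-- two substitutions which are congruent modulo an ideal -/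
lemma sub_mem_of {σ : Type} {S : Type u} [CommRing S] [Algebra k S] (I : Ideal S) (g g' : σ → S)
    (h : ∀ x, g x - g' x ∈ I) (P : MvPolynomial σ k) : aeval g P - aeval g' P ∈ I := by
  rw [← Ideal.Quotient.eq]
  have h1 : (Ideal.Quotient.mkₐ k I).comp (aeval g) = (Ideal.Quotient.mkₐ k I).comp (aeval g') := by
    apply MvPolynomial.algHom_ext
    intro x
    rw [AlgHom.comp_apply, AlgHom.comp_apply, aeval_X, aeval_X]
    exact Ideal.Quotient.eq.2 (h x)
  exact DFunLike.congr_fun h1 P

lemma dvd0 (β : k) (P : MvPolynomial (Fin 3) k)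
    (h : aeval ![C β, X 1, X 2] P = (0 : MvPolynomial (Fin 3) k)) : (X 0 - C β) ∣ P := by
  have h1 := sub_mem_of (Ideal.span {(X 0 - C β : MvPolynomial (Fin 3) k)}) X ![C β, X 1, X 2] (by
    intro x
    fin_cases x
    · exact Ideal.mem_span_singleton_self _
    · simp
    · simp) P
  rw [aeval_X_left, AlgHom.id_apply, h, sub_zero] at h1
  exact Ideal.mem_span_singleton.1 h1

lemma dvd1 (β : k) (P : MvPolynomial (Fin 3) k)
    (h : aeval ![X 0, C β, X 2] P = (0 : MvPolynomial (Fin 3) k)) : (X 1 - C β) ∣ P := by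
  have h1 := sub_mem_of (Ideal.span {(X 1 - C β : MvPolynomial (Fin 3) k)}) X ![X 0, C β, X 2] (by
    intro x
    fin_cases x
    · simp
    · exact Ideal.mem_span_singleton_self _
    · simp) P
  rw [aeval_X_left, AlgHom.id_apply, h, sub_zero] at h1
  exact Ideal.mem_span_singleton.1 h1

/-- composition of substitutions -/
lemma comp_P {S : Type u} [CommRing S] [Algebra k S] (α : k) (z c y : S) (C₀ : P4 k) :
    aeval ![z, c, y] (aeval ![C α, X 0, X 1, X 2] C₀ : MvPolynomial (Fin 3) k) =
      aeval ![algebraMap k S α, z, c, y] C₀ := by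
  have h1 : (aeval ![z, c, y] : MvPolynomial (Fin 3) k →ₐ[k] S).comp
      (aeval ![C α, X 0, X 1, X 2] : P4 k →ₐ[k] MvPolynomial (Fin 3) k) =
      aeval ![algebraMap k S α, z, c, y] := by
    apply MvPolynomial.algHom_ext
    intro x
    rw [AlgHom.comp_apply, aeval_X, aeval_X]
    fin_cases x <;> simp
  exact DFunLike.congr_fun h1 C₀

lemma pderiv_P (α : k) (C₀ : P4 k) :
    pderiv 0 (aeval ![C α, X 0, X 1, X 2] C₀ : MvPolynomial (Fin 3) k) =
      aeval ![C α, X 0, X 1, X 2] (pderiv 1 C₀) := by
  induction C₀ using MvPolynomial.induction_on with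
  | C a =>
    rw [pderiv_C, map_zero, aeval_C]
    exact pderiv_C
  | add p q hp hq => rw [map_add, map_add, map_add, map_add, hp, hq]
  | mul_X p i hp =>
    rw [map_mul, pderiv_mul, pderiv_mul, map_add, map_mul, map_mul, hp, aeval_X]
    congr 2
    fin_cases i
    · simp [pderiv_X]
    · simp [pderiv_X]
    · simp [pderiv_X]
    · simp [pderiv_X]

/-- a polynomial in `c` which vanishes for all `c ≠ s` -/
lemma spec [Infinite k] {L : Type u} [Field L] [Algebra k L] (R : MvPolynomial (Fin 3) k)
    (β s τ : k) (ξ : L)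
    (h : ∀ c : k, c ≠ s → aeval ![algebraMap k L β, algebraMap k L c,
      algebraMap k L τ + (algebraMap k L c - algebraMap k L s) * ξ] R = (0 : L)) :
    eval ![β, s, τ] R = 0 := by
  obtain ⟨H, hH⟩ : ∃ H : Polynomial L, ∀ c : k, H.eval (algebraMap k L c) =
      aeval ![algebraMap k L β, algebraMap k L c,
        algebraMap k L τ + (algebraMap k L c - algebraMap k L s) * ξ] R := by
    refine ⟨aeval ![Polynomial.C (algebraMap k L β), Polynomial.X,
      Polynomial.C (algebraMap k L τ) +
        (Polynomial.X - Polynomial.C (algebraMap k L s)) * Polynomial.C ξ] R, fun c => ?_⟩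
    have h1 : ((Polynomial.aeval (algebraMap k L c) : Polynomial L →ₐ[L] L).restrictScalars k).comp
        (aeval ![Polynomial.C (algebraMap k L β), Polynomial.X,
          Polynomial.C (algebraMap k L τ) +
          (Polynomial.X - Polynomial.C (algebraMap k L s)) * Polynomial.C ξ]) =
        aeval ![algebraMap k L β, algebraMap k L c,
        algebraMap k L τ + (algebraMap k L c - algebraMap k L s) * ξ] := by
      apply MvPolynomial.algHom_ext
      intro x
      rw [AlgHom.comp_apply, aeval_X, aeval_X]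
      fin_cases x <;> simp
    have h2 := DFunLike.congr_fun h1 R
    rw [← h2, AlgHom.comp_apply, AlgHom.restrictScalars_apply, Polynomial.coe_aeval_eq_eval]
  have hz : H = 0 := by
    apply Polynomial.eq_zero_of_infinite_isRoot
    have hinf : (Set.image (algebraMap k L) {c | c ≠ s}).Infinite := by
      refine Set.Infinite.image (algebraMap k L).injective.injOn ?_
      have : {c : k | c ≠ s} = {s}ᶜ := rfl
      rw [this]
      exact (Set.finite_singleton s).infinite_compl
    refine hinf.mono ?_
    rintro _ ⟨c, hc, rfl⟩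
    change H.eval (algebraMap k L c) = 0
    rw [hH c, h c hc]
  have h3 := hH s
  rw [hz, Polynomial.eval_zero, sub_self, zero_mul, add_zero] at h3
  have h4 : aeval ![algebraMap k L β, algebraMap k L s, algebraMap k L τ] R =
      algebraMap k L (eval ![β, s, τ] R) := by
    have h5 : ((Algebra.ofId k L).comp (aeval ![β, s, τ] : MvPolynomial (Fin 3) k →ₐ[k] k)) =
        aeval ![algebraMap k L β, algebraMap k L s, algebraMap k L τ] := by
      apply MvPolynomial.algHom_ext
      intro x
      rw [AlgHom.comp_apply, aeval_X, aeval_X]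
      fin_cases x <;> rfl
    rw [← h5, AlgHom.comp_apply]
    rfl
  rw [h4] at h3
  exact (map_eq_zero (algebraMap k L)).1 h3.symm

lemma cop (β β' : k) (h : β ≠ β') :
    IsCoprime (X 0 - C β : MvPolynomial (Fin 3) k) (X 0 - C β') := by
  refine ⟨C (-(β - β')⁻¹), C (β - β')⁻¹, ?_⟩
  have h1 : β - β' ≠ 0 := sub_ne_zero.2 h
  have h2 : (C (β - β')⁻¹ : MvPolynomial (Fin 3) k) * (C β - C β') = 1 := by
    rw [← C_sub, ← C_mul, inv_mul_cancel₀ h1, C_1]
  rw [C_neg]
  linear_combination h2

lemma one_le_deg (β : k) : 1 ≤ degreeOf 0 (X 0 - C β : MvPolynomial (Fin 3) k) := by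
  have h1 : degreeOf 0 (X 0 : MvPolynomial (Fin 3) k) ≤
      max (degreeOf 0 (X 0 - C β : MvPolynomial (Fin 3) k)) (degreeOf (0 : Fin 3) (C β)) := by
    have := degreeOf_add_le 0 (X 0 - C β : MvPolynomial (Fin 3) k) (C β)
    rw [sub_add_cancel] at this
    exact this
  rw [degreeOf_X_self, degreeOf_C] at h1
  rcases le_max_iff.1 h1 with h | h
  · exact h
  · exact absurd h (by norm_num)

lemma lin_sb (α β s τ c : k) (C₀ : P4 k) :
    lin α β s τ (sb c C₀) = aeval ![Polynomial.C β, Polynomial.C c,
      Polynomial.C τ + (Polynomial.C c - Polynomial.C s) * Polynomial.X]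
        (aeval ![C α, X 0, X 1, X 2] C₀ : MvPolynomial (Fin 3) k) := by
  rw [comp_P]
  have h1 : (lin α β s τ).comp (sb c) = (aeval ![algebraMap k (Polynomial k) α, Polynomial.C β,
      Polynomial.C c, Polynomial.C τ + (Polynomial.C c - Polynomial.C s) * Polynomial.X]) := by
    apply MvPolynomial.algHom_ext
    intro x
    rw [AlgHom.comp_apply, aeval_X]
    unfold sb lin
    rw [aeval_X]
    fin_cases x
    · simp
    · simp
    · simp
    · simp
      ring
  exact DFunLike.congr_fun h1 C₀

theorem sdb : SdbStmt.{u} := by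
  classical
  intro k _ _ N α s b t D C₀ hb hC₀ J hJ hD
  obtain ⟨P, hP⟩ : ∃ P : MvPolynomial (Fin 3) k, P = aeval ![C α, X 0, X 1, X 2] C₀ := ⟨_, rfl⟩
  have hP0 : P ≠ 0 := by
    intro h0
    apply hC₀
    have h1 := comp_P (S := P4 k) α (X 1) (X 2) (X 3) C₀
    rw [← hP, h0, map_zero] at h1
    exact h1.symm
  -- divisibility
  have hdv : ∀ j ∈ J, (X 0 - C (b j)) ∣ P := by
    intro j hj
    apply dvd0
    rw [hP, comp_P]
    have h1 : (aeval ![0, 0, X 1, X 2] : P4 k →ₐ[k] MvPolynomial (Fin 3) k).comp (pla α (b j)) =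
        aeval ![algebraMap k (MvPolynomial (Fin 3) k) α, C (b j), X 1, X 2] := by
      apply MvPolynomial.algHom_ext
      intro x
      unfold pla
      rw [AlgHom.comp_apply, aeval_X, aeval_X]
      fin_cases x <;> simp
    rw [← h1, AlgHom.comp_apply, (hJ j hj).1, map_zero]
  obtain ⟨Q, hQ⟩ : (∏ l ∈ J, (X 0 - C (b l) : MvPolynomial (Fin 3) k)) ∣ P := by
    refine Finset.prod_dvd_of_coprime ?_ hdv
    intro j _ l _ hjl
    exact cop _ _ (fun h => hjl (hb h))
  have hQ0 : Q ≠ 0 := by
    rintro rfl
    exact hP0 (by rw [hQ, mul_zero])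
  have hPr0 : (∏ l ∈ J, (X 0 - C (b l) : MvPolynomial (Fin 3) k)) ≠ 0 := by
    intro h0
    exact hP0 (by rw [hQ, h0, zero_mul])
  have hnu : ¬ IsUnit (X 1 - C s : MvPolynomial (Fin 3) k) := by
    intro hu
    have h1 := hu.map (eval ![0, s, 0] : MvPolynomial (Fin 3) k →+* k)
    rw [map_sub, eval_X, eval_C] at h1
    simp at h1
  obtain ⟨R, hQR, hR⟩ := (FiniteMultiplicity.of_not_isUnit hnu hQ0).exists_eq_pow_mul_and_not_dvd
  generalize multiplicity (X 1 - C s : MvPolynomial (Fin 3) k) Q = e at hQR
  have hR0 : R ≠ 0 := by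
    rintro rfl
    exact hR (dvd_zero _)
  have hpow0 : (X 1 - C s : MvPolynomial (Fin 3) k) ^ e ≠ 0 := by
    intro h0
    exact hQ0 (by rw [hQR, h0, zero_mul])
  obtain ⟨G, hG⟩ : ∃ G : MvPolynomial (Fin 2) k, G = aeval ![X 0, C s, X 1] R := ⟨_, rfl⟩
  refine ⟨G, ?_, ?_, ?_, ?_⟩
  · intro h0
    apply hR
    apply dvd1
    have h1 : (aeval ![X 0, X 2] : MvPolynomial (Fin 2) k →ₐ[k] MvPolynomial (Fin 3) k).comp
        (aeval ![X 0, C s, X 1]) = aeval ![X 0, C s, X 2] := by
      apply MvPolynomial.algHom_ext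
      intro x
      rw [AlgHom.comp_apply, aeval_X, aeval_X]
      fin_cases x <;> simp
    rw [← h1, AlgHom.comp_apply, ← hG, h0, map_zero]
  · have h1 : degreeOf 0 G ≤ degreeOf 0 R := by
      rw [hG]
      refine degreeOf_aeval_le _ _ _ ?_ ?_ R
      · simp
      · intro x hx
        fin_cases x
        · exact absurd rfl hx
        · exact degreeOf_C _ _
        · exact degreeOf_X_of_ne (by decide)
    have h2 : degreeOf 0 P ≤ degreeOf 1 C₀ := by
      rw [hP]
      refine degreeOf_aeval_le _ _ _ ?_ ?_ C₀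
      · simp
      · intro x hx
        fin_cases x
        · exact degreeOf_C _ _
        · exact absurd rfl hx
        · exact degreeOf_X_of_ne (by decide)
        · exact degreeOf_X_of_ne (by decide)
    have h3 : degreeOf 0 P = degreeOf 0 (∏ l ∈ J, (X 0 - C (b l) : MvPolynomial (Fin 3) k)) +
        (degreeOf 0 ((X 1 - C s : MvPolynomial (Fin 3) k) ^ e) + degreeOf 0 R) := by
      rw [← degreeOf_mul_eq hpow0 hR0, ← hQR, ← degreeOf_mul_eq hPr0 hQ0, ← hQ]
    have h4 : J.card ≤ degreeOf 0 (∏ l ∈ J, (X 0 - C (b l) : MvPolynomial (Fin 3) k)) := by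
      rw [degreeOf_prod_eq J (fun l => (X 0 - C (b l) : MvPolynomial (Fin 3) k))
        (fun l hl h0 => hPr0 (Finset.prod_eq_zero hl h0))]
      calc J.card = ∑ _l ∈ J, 1 := by simp
        _ ≤ _ := Finset.sum_le_sum fun l _ => one_le_deg (b l)
    omega
  · have h1 : degreeOf 1 G ≤ degreeOf 2 R := by
      rw [hG]
      refine degreeOf_aeval_le _ _ _ ?_ ?_ R
      · simp
      · intro x hx
        fin_cases x
        · exact degreeOf_X_of_ne (by decide)
        · exact degreeOf_C _ _
        · exact absurd rfl hx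
    have h2 : degreeOf 2 P ≤ degreeOf 3 C₀ := by
      rw [hP]
      refine degreeOf_aeval_le _ _ _ ?_ ?_ C₀
      · simp
      · intro x hx
        fin_cases x
        · exact degreeOf_C _ _
        · exact degreeOf_X_of_ne (by decide)
        · exact degreeOf_X_of_ne (by decide)
        · exact absurd rfl hx
    have h3 : degreeOf 2 P = degreeOf 2 (∏ l ∈ J, (X 0 - C (b l) : MvPolynomial (Fin 3) k)) +
        (degreeOf 2 ((X 1 - C s : MvPolynomial (Fin 3) k) ^ e) + degreeOf 2 R) := by
      rw [← degreeOf_mul_eq hpow0 hR0, ← hQR, ← degreeOf_mul_eq hPr0 hQ0, ← hQ]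
    omega
  · intro j hj
    have hev : eval ![b j, t j] G = eval ![b j, s, t j] R := by
      have h1 : (aeval ![b j, t j] : MvPolynomial (Fin 2) k →ₐ[k] k).comp
          (aeval ![X 0, C s, X 1]) = aeval ![b j, s, t j] := by
        apply MvPolynomial.algHom_ext
        intro x
        rw [AlgHom.comp_apply, aeval_X, aeval_X]
        fin_cases x <;> simp
      have h2 := DFunLike.congr_fun h1 R
      rw [AlgHom.comp_apply, ← hG] at h2
      exact h2
    rw [hev]
    by_cases hjJ : j ∈ J
    · refine spec (L := k) R (b j) s (t j) 0 fun c hc => ?_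
      have h1 := (hJ j hjJ).2 c
      have h2 : eval ![α, b j, c, t j] (pderiv 1 C₀) = aeval ![b j, c, t j] (pderiv 0 P) := by
        rw [hP, pderiv_P, comp_P]
        rfl
      obtain ⟨T, hT⟩ : ∃ T : MvPolynomial (Fin 3) k,
          T = ∏ l ∈ J.erase j, (X 0 - C (b l) : MvPolynomial (Fin 3) k) := ⟨_, rfl⟩
      have h2' : P = (X 0 - C (b j)) * (T * Q) := by
        rw [hQ, hT, ← mul_assoc, Finset.mul_prod_erase J
          (fun l => (X 0 - C (b l) : MvPolynomial (Fin 3) k)) hjJ]
      rw [h2, h2', pderiv_mul, map_add, map_mul, map_mul, map_mul] at h1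
      have h3 : aeval ![b j, c, t j] (X 0 - C (b j) : MvPolynomial (Fin 3) k) = 0 := by
        rw [map_sub, aeval_X, aeval_C]
        simp
      have h4 : aeval ![b j, c, t j] (pderiv 0 (X 0 - C (b j) : MvPolynomial (Fin 3) k)) = 1 := by
        rw [map_sub, pderiv_X_self, pderiv_C, sub_zero, map_one]
      rw [h3, h4, zero_mul, add_zero, one_mul, hT, map_prod, hQR, map_mul, map_pow] at h1
      have h5 : ∀ l : Fin N, aeval ![b j, c, t j] (X 0 - C (b l) : MvPolynomial (Fin 3) k) =
          b j - b l := by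
        intro l
        rw [map_sub, aeval_X, aeval_C]
        rfl
      have h6 : aeval ![b j, c, t j] (X 1 - C s : MvPolynomial (Fin 3) k) = c - s := by
        rw [map_sub, aeval_X, aeval_C]
        rfl
      rw [Finset.prod_congr rfl (fun l _ => h5 l), h6] at h1
      have h7 : ∏ l ∈ J.erase j, (b j - b l) ≠ 0 := by
        refine Finset.prod_ne_zero_iff.2 fun l hl => sub_ne_zero.2 fun h => ?_
        exact (Finset.mem_erase.1 hl).1 (hb h).symm
      have h8 : (c - s) ^ e ≠ 0 := pow_ne_zero _ (sub_ne_zero.2 hc)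
      have h9 : aeval ![b j, c, t j] R = 0 := by
        rcases mul_eq_zero.1 h1 with h | h
        · exact absurd h h7
        · rcases mul_eq_zero.1 h with h | h
          · exact absurd h h8
          · exact h
      have h10 : (![algebraMap k k (b j), algebraMap k k c,
          algebraMap k k (t j) + (algebraMap k k c - algebraMap k k s) * 0] : Fin 3 → k) =
          ![b j, c, t j] := by
        rw [mul_zero, add_zero]
        rfl
      rw [h10]
      exact h9
    · have hDt : D j ≠ ⊤ := by
        rcases hj with h | h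
        · exact absurd h hjJ
        · exact h
      obtain ⟨𝔪, h𝔪, hle⟩ := Ideal.exists_le_maximal (D j) hDt
      let _ : Field (Polynomial k ⧸ 𝔪) := Ideal.Quotient.field 𝔪
      refine spec (L := Polynomial k ⧸ 𝔪) R (b j) s (t j)
        (Ideal.Quotient.mk 𝔪 Polynomial.X) fun c hc => ?_
      have h1 : Ideal.Quotient.mk 𝔪 (lin α (b j) s (t j) (sb c C₀)) = 0 :=
        Ideal.Quotient.eq_zero_iff_mem.2 (hle (hD j c))
      obtain ⟨v, hv⟩ : ∃ v : Fin 3 → Polynomial k ⧸ 𝔪, v =
          ![algebraMap k (Polynomial k ⧸ 𝔪) (b j), algebraMap k (Polynomial k ⧸ 𝔪) c,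
          algebraMap k (Polynomial k ⧸ 𝔪) (t j) + (algebraMap k (Polynomial k ⧸ 𝔪) c -
          algebraMap k (Polynomial k ⧸ 𝔪) s) * Ideal.Quotient.mk 𝔪 Polynomial.X] := ⟨_, rfl⟩
      rw [← hv]
      have h2 : aeval v P = 0 := by
        rw [lin_sb, ← hP] at h1
        have h3 : (Ideal.Quotient.mkₐ k 𝔪).comp (aeval ![Polynomial.C (b j), Polynomial.C c,
            Polynomial.C (t j) + (Polynomial.C c - Polynomial.C s) * Polynomial.X]) =
            aeval v := by
          apply MvPolynomial.algHom_ext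
          intro x
          rw [AlgHom.comp_apply, aeval_X, aeval_X, hv]
          fin_cases x <;> rfl
        rw [← h3]
        exact h1
      have hv0 : v 0 = algebraMap k (Polynomial k ⧸ 𝔪) (b j) := by
        rw [hv]
        rfl
      have hv1 : v 1 = algebraMap k (Polynomial k ⧸ 𝔪) c := by
        rw [hv]
        rfl
      rw [hQ, map_mul, map_prod, hQR, map_mul, map_pow] at h2
      have h5 : ∀ l : Fin N, aeval v (X 0 - C (b l) : MvPolynomial (Fin 3) k) =
          algebraMap k (Polynomial k ⧸ 𝔪) (b j - b l) := by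
        intro l
        rw [map_sub, map_sub, aeval_X, hv0]
        congr 1
        exact aeval_C _ _
      have h6 : aeval v (X 1 - C s : MvPolynomial (Fin 3) k) =
          algebraMap k (Polynomial k ⧸ 𝔪) (c - s) := by
        rw [map_sub, map_sub, aeval_X, hv1]
        congr 1
        exact aeval_C _ _
      rw [Finset.prod_congr rfl (fun l _ => h5 l), h6] at h2
      have h7 : ∏ l ∈ J, algebraMap k (Polynomial k ⧸ 𝔪) (b j - b l) ≠ 0 := by
        refine Finset.prod_ne_zero_iff.2 fun l hl h => ?_
        have h' := (map_eq_zero (algebraMap k (Polynomial k ⧸ 𝔪))).1 h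
        exact hjJ (by rw [hb (sub_eq_zero.1 h')]; exact hl)
      have h8 : (algebraMap k (Polynomial k ⧸ 𝔪) (c - s)) ^ e ≠ 0 := by
        refine pow_ne_zero _ fun h => ?_
        exact hc (sub_eq_zero.1 ((map_eq_zero (algebraMap k (Polynomial k ⧸ 𝔪))).1 h))
      rcases mul_eq_zero.1 h2 with h | h
      · exact absurd h h7
      · rcases mul_eq_zero.1 h with h | h
        · exact absurd h h8
        · exact h

end

end Pool.Agent.PPX.H33
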